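import Pool.Agent.T9h40.GC.Spec2

/-!
# Superelliptic curves satisfy `HypP`
-/

open Polynomial Finset

namespace Pool.Agent.T9h41.GC

open Pool.Agent.T9h40.GP (HypP)
open Pool.Agent.T9h40.GC (SuperEll)

/-- one step of the construction of the polynomial part of the `n`-th root. -/
lemma step {n e j : ℕ} (hn : 1 ≤ n) (hj : j + 1 ≤ e) {D B : ℂ[X]} (hB : B.Monic)
    (he : B.natDegree = e) (hlt : (B ^ n - D).degree < ((n * e - j : ℕ) : WithBot ℕ)) :
    ∃ B' : ℂ[X], B'.Monic ∧ B'.natDegree = e ∧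
      (B' ^ n - D).degree < ((n * e - (j + 1) : ℕ) : WithBot ℕ) := by
  have hne : e ≤ n * e := Nat.le_mul_of_pos_left e hn
  set c : ℂ := (B ^ n - D).coeff (n * e - (j + 1)) with hc
  set h : ℂ[X] := C (c / n) * X ^ (e - (j + 1)) with hh
  have hdegh : h.degree < (e : WithBot ℕ) := by
    refine (degree_C_mul_X_pow_le _ _).trans_lt ?_
    exact_mod_cast (by omega : e - (j + 1) < e)
  have hBdeg : B.degree = (e : WithBot ℕ) := by
    rw [degree_eq_natDegree hB.ne_zero, he]
  have hlt1 : h.degree < B.degree := by rw [hBdeg]; exact hdegh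
  have hB' : (B - h).Monic := hB.sub_of_left hlt1
  have he' : (B - h).natDegree = e := by
    rw [← he]
    exact natDegree_eq_of_degree_eq (degree_sub_eq_left_of_degree_lt hlt1)
  refine ⟨B - h, hB', he', ?_⟩
  set Sm : ℂ[X] := ∑ i ∈ range n, (B - h) ^ i * B ^ (n - 1 - i) with hSm
  have key : (B - h) ^ n - D = (B ^ n - D) - h * Sm := by
    have h1 := (Commute.all (B - h) B).mul_geom_sum₂ n
    have h2 : (B - h - B) * Sm = (B - h) ^ n - B ^ n := h1
    linear_combination -h2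
  -- the sum
  have hmon : ∀ i ∈ range n, ((B - h) ^ i * B ^ (n - 1 - i)).Monic ∧
      ((B - h) ^ i * B ^ (n - 1 - i)).natDegree = (n - 1) * e := by
    intro i hi
    have hi' := mem_range.1 hi
    refine ⟨(hB'.pow i).mul (hB.pow _), ?_⟩
    rw [(hB'.pow i).natDegree_mul (hB.pow _), hB'.natDegree_pow, hB.natDegree_pow, he, he',
      ← add_mul]
    congr 1
    omega
  have hSdeg : Sm.natDegree ≤ (n - 1) * e := by
    refine natDegree_sum_le_of_forall_le _ _ fun i hi => (hmon i hi).2.le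
  have hScoeff : Sm.coeff ((n - 1) * e) = n := by
    rw [hSm, finsetSum_coeff]
    have : ∀ i ∈ range n, ((B - h) ^ i * B ^ (n - 1 - i)).coeff ((n - 1) * e) = 1 := by
      intro i hi
      have h1 := (hmon i hi).1.coeff_natDegree
      rwa [(hmon i hi).2] at h1
    rw [sum_congr rfl this]
    simp
  have hnc : (n : ℂ) ≠ 0 := by exact_mod_cast (by omega : n ≠ 0)
  have hidx : n * e - (j + 1) = (e - (j + 1)) + (n - 1) * e := by
    have : n * e = (n - 1) * e + e := by
      conv_lhs => rw [show n = (n - 1) + 1 by omega]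
      ring
    omega
  have hhS : ∀ k, (h * Sm).coeff (k + (e - (j + 1))) = c / n * Sm.coeff k := by
    intro k
    rw [hh, mul_assoc, coeff_C_mul, X_pow_mul, coeff_mul_X_pow]
  rw [key, degree_lt_iff_coeff_zero]
  intro k hk
  rw [degree_lt_iff_coeff_zero] at hlt
  obtain ⟨q, rfl⟩ : ∃ q, k = q + (e - (j + 1)) := ⟨k - (e - (j + 1)), by omega⟩
  rw [coeff_sub, hhS]
  have hq : (n - 1) * e ≤ q := by omega
  rcases hq.eq_or_lt with h0 | h0
  · rw [← h0, hScoeff]
    have : (n - 1) * e + (e - (j + 1)) = n * e - (j + 1) := by omega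
    rw [this, ← hc]
    field_simp
    ring
  · rw [coeff_eq_zero_of_natDegree_lt (hSdeg.trans_lt h0), hlt _ (by omega)]
    simp

lemma exists_approx {n e : ℕ} (hn : 1 ≤ n) {D : ℂ[X]} (hD : D.Monic)
    (hd : D.natDegree = n * e) : ∀ j ≤ e, ∃ B : ℂ[X], B.Monic ∧ B.natDegree = e ∧
      (B ^ n - D).degree < ((n * e - j : ℕ) : WithBot ℕ)
  | 0, _ => by
    refine ⟨X ^ e, monic_X_pow e, natDegree_X_pow e, ?_⟩
    have hm : ((X ^ e : ℂ[X]) ^ n).Monic := (monic_X_pow e).pow n
    have hdm : ((X ^ e : ℂ[X]) ^ n).degree = ((n * e : ℕ) : WithBot ℕ) := by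
      rw [degree_eq_natDegree hm.ne_zero, natDegree_pow, natDegree_X_pow]
    have hdD : D.degree = ((n * e : ℕ) : WithBot ℕ) := by
      rw [degree_eq_natDegree hD.ne_zero, hd]
    rw [Nat.sub_zero, ← hdm]
    exact degree_sub_lt_left (by rw [hdm, hdD]) hm.ne_zero
      (by rw [hm.leadingCoeff, hD.leadingCoeff])
  | j + 1, hj => by
    obtain ⟨B, h1, h2, h3⟩ := exists_approx hn hD hd j (by omega)
    exact step hn hj h1 h2 h3

theorem superEll : SuperEll := by
  intro n e hn he D hD hd hpow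
  obtain ⟨B, hB, hBe, hlt⟩ := exists_approx (by omega) hD hd e le_rfl
  have hn0 : n ≠ 0 := by omega
  have hζ := Complex.isPrimitiveRoot_exp n hn0
  set ζ := Complex.exp (2 * Real.pi * Complex.I / n) with hζd
  have hζ0 : ∀ l : ℕ, ζ ^ l ≠ 0 := fun l => pow_ne_zero _ (hζ.ne_zero hn0)
  have hev : ∀ l : Fin n, (X ^ n - C D : Polynomial ℂ[X]).eval (C (ζ ^ (l : ℕ)) * B) =
      B ^ n - D := by
    intro l
    simp only [eval_sub, eval_pow, eval_X, eval_C]
    rw [mul_pow, ← C_pow, ← pow_mul, mul_comm (l : ℕ) n, pow_mul, hζ.pow_eq_one, one_pow, C_1,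
      one_mul]
  have hne : B ^ n - D ≠ 0 := sub_ne_zero.2 (hpow B)
  refine ⟨fun l => C (ζ ^ (l : ℕ)) * B, ⟨hn, he, monic_X_pow_sub_C D hn0,
    natDegree_X_pow_sub_C, ?_, ?_, ?_, ?_, ?_⟩⟩
  · intro i hi
    rcases Nat.eq_zero_or_pos i with rfl | hi0
    · rw [coeff_sub, coeff_X_pow, if_neg (by omega), coeff_C_zero, zero_sub, natDegree_neg, hd]
      rw [Nat.sub_zero, mul_comm]
    · rw [coeff_sub, coeff_X_pow, if_neg (by omega), coeff_C_of_ne_zero (by omega), sub_zero,
        natDegree_zero]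
      exact Nat.zero_le _
  · intro l
    rw [natDegree_C_mul (hζ0 l), hBe]
  · intro l l' hll
    simp only [leadingCoeff_mul, leadingCoeff_C, hB.leadingCoeff, mul_one] at hll
    exact Fin.ext (hζ.pow_inj l.2 l'.2 hll)
  · intro l
    rw [hev l]
    exact hne
  · intro l
    rw [hev l, natDegree_lt_iff_degree_lt hne]
    have : e * (n - 1) = n * e - e := by
      rw [mul_comm n e, Nat.mul_sub, mul_one]
    rw [this]
    exact hlt

end Pool.Agent.T9h41.GC
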